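import Mathlib

/-!
# The closure of a field under extensions of degree prime to a prime number

Let `Ω` be an algebraically closed algebraic extension of `F` and `ℓ` a prime number. There is an
intermediate field `E` all of whose finite subextensions have a degree prime to `ℓ`, and such that
every polynomial over `E` whose degree is not divisible by `ℓ` has a root in `E`.
-/

set_option autoImplicit false

namespace Pool.Agent.Q312.AE

open Polynomial IntermediateField Module

section

variable {F Ω : Type*} [Field F] [Field Ω] [Algebra F Ω]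

/-- all finite subextensions have a degree which is not divisible by `ℓ` -/
def PrimeTo (ℓ : ℕ) (E : IntermediateField F Ω) : Prop :=
  ∀ M : IntermediateField F Ω, FiniteDimensional F M → M ≤ E → ¬ ℓ ∣ finrank F M

theorem fg_of_finite (M : IntermediateField F Ω) [hM : FiniteDimensional F M] :
    ∃ S : Finset Ω, adjoin F (S : Set Ω) = M := by
  have h1 : M.toSubalgebra.FG := by
    apply Subalgebra.fg_of_fg_toSubmodule
    exact (Submodule.fg_iff_finiteDimensional _).2 hM
  exact fg_of_fg_toSubalgebra M h1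

theorem compact_of_finite (M : IntermediateField F Ω) [FiniteDimensional F M] :
    IsCompactElement M := by
  obtain ⟨S, hS⟩ := fg_of_finite M
  rw [← hS]
  exact adjoin_finset_isCompactElement S

theorem exists_maximal {ℓ : ℕ} (hℓ : ℓ.Prime) :
    ∃ E : IntermediateField F Ω, Maximal (PrimeTo ℓ) E := by
  obtain ⟨E, -, hE⟩ := zorn_le_nonempty₀ {E : IntermediateField F Ω | PrimeTo ℓ E} (by
    intro c hc hchain y hy
    refine ⟨sSup c, ?_, fun z hz => le_sSup hz⟩
    intro M hM hMc
    have h1 := (CompleteLattice.isCompactElement_iff_le_of_directed_sSup_le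
      (IntermediateField F Ω) M).1 (compact_of_finite M) c ⟨y, hy⟩ hchain.directedOn hMc
    obtain ⟨E, hE, hME⟩ := h1
    exact hc hE M hM hME) ⊥ (by
    intro M hM hMb
    have h1 : M = ⊥ := le_bot_iff.1 hMb
    subst h1
    rw [IntermediateField.finrank_bot]
    exact hℓ.one_lt.ne' ∘ Nat.dvd_one.1)
  exact ⟨E, hE⟩

variable [Algebra.IsAlgebraic F Ω]

/-- the step in Zorn's lemma -/
theorem primeTo_adjoin {ℓ : ℕ} (hℓ : ℓ.Prime) {E : IntermediateField F Ω} (hE : PrimeTo ℓ E)
    (β : Ω) (hβ : ¬ ℓ ∣ (minpoly E β).natDegree) :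
    PrimeTo ℓ ((adjoin E {β}).restrictScalars F) := by
  classical
  intro M hM hME
  obtain ⟨S, hS⟩ := fg_of_finite M
  have h1 : ∀ s : Ω, s ∈ S → ∃ T : Finset Ω, (T : Set Ω) ⊆ (E : Set Ω) ∪ {β} ∧
      s ∈ adjoin F (T : Set Ω) := by
    intro s hs
    have h2 : s ∈ (adjoin E {β}).restrictScalars F := by
      apply hME
      rw [← hS]
      exact subset_adjoin _ _ hs
    rw [restrictScalars_adjoin] at h2
    obtain ⟨T, hT1, hT2⟩ := exists_finset_of_mem_adjoin h2
    exact ⟨T, hT1, hT2⟩
  choose! T hT1 hT2 using h1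
  set p := minpoly E β with hp
  let W : Finset Ω := (S.biUnion T).filter (· ∈ E) ∪ (p.map (algebraMap E Ω)).coeffs
  have hWE : (W : Set Ω) ⊆ E := by
    intro x hx
    rcases Finset.mem_union.1 hx with h | h
    · exact (Finset.mem_filter.1 h).2
    · obtain ⟨n, -, hn⟩ := mem_coeffs_iff.1 h
      rw [hn, coeff_map]
      exact (p.coeff n).2
  set N0 := adjoin F (W : Set Ω) with hN0
  have hN0E : N0 ≤ E := adjoin_le_iff.2 hWE
  have hfin0 : FiniteDimensional F N0 :=
    finiteDimensional_adjoin fun x _ => Algebra.IsIntegral.isIntegral x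
  -- the minimal polynomial over `N0`
  have hlift : p.map (algebraMap E Ω) ∈ lifts (algebraMap N0 Ω) := by
    rw [lifts_iff_coeff_lifts]
    intro n
    by_cases h0 : (p.map (algebraMap E Ω)).coeff n = 0
    · exact ⟨0, by rw [h0, map_zero]⟩
    · refine ⟨⟨(p.map (algebraMap E Ω)).coeff n, subset_adjoin _ _ ?_⟩, rfl⟩
      exact Finset.mem_union_right _ (coeff_mem_coeffs h0)
  have hint : IsIntegral E β := Algebra.IsIntegral.isIntegral β
  have hint0 : IsIntegral N0 β := Algebra.IsIntegral.isIntegral β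
  have hpm : (p.map (algebraMap E Ω)).Monic := (minpoly.monic hint).map _
  obtain ⟨p0, hp0, hp0d, hp0m⟩ := lifts_and_natDegree_eq_and_monic hlift hpm
  have hdeg : (minpoly N0 β).natDegree = p.natDegree := by
    apply le_antisymm
    · have h2 : minpoly N0 β ∣ p0 := by
        apply minpoly.dvd
        rw [← eval_map_algebraMap, hp0, eval_map_algebraMap]
        exact minpoly.aeval _ _
      have h3 := natDegree_le_of_dvd h2 hp0m.ne_zero
      rw [hp0d, (minpoly.monic hint).natDegree_map] at h3
      exact h3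
    · let _ : Algebra N0 E := (inclusion hN0E).toAlgebra
      have _ : IsScalarTower N0 E Ω := IsScalarTower.of_algebraMap_eq fun x => rfl
      have h2 := minpoly.dvd_map_of_isScalarTower N0 E β
      have h3 := natDegree_le_of_dvd h2 ((minpoly.monic hint0).map _).ne_zero
      rwa [(minpoly.monic hint0).natDegree_map] at h3
  set N := (adjoin N0 {β}).restrictScalars F with hN
  have hfin1 : FiniteDimensional N0 (adjoin N0 {β}) := adjoin.finiteDimensional hint0
  have hfin2 : FiniteDimensional F (adjoin N0 {β}) := FiniteDimensional.trans F N0 _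
  have hfinN : FiniteDimensional F N := hfin2
  have hMN : M ≤ N := by
    rw [← hS, adjoin_le_iff]
    intro s hs
    have h2 := hT2 s hs
    refine adjoin_le_iff.2 ?_ h2
    intro x hx
    rcases hT1 s hs hx with h | h
    · have h3 : x ∈ N0 := by
        apply subset_adjoin
        refine Finset.mem_union_left _ (Finset.mem_filter.2 ⟨?_, h⟩)
        exact Finset.mem_biUnion.2 ⟨s, hs, hx⟩
      exact (adjoin N0 {β}).algebraMap_mem ⟨x, h3⟩
    · rw [Set.mem_singleton_iff] at h
      rw [h]
      exact mem_adjoin_simple_self N0 β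
  have hdvd : finrank F M ∣ finrank F N := finrank_dvd_of_le_right hMN
  have hmul : finrank F N = finrank F N0 * p.natDegree := by
    have h2 : finrank F N0 * finrank N0 (adjoin N0 {β}) = finrank F (adjoin N0 {β}) :=
      finrank_mul_finrank F N0 (adjoin N0 {β})
    rw [adjoin.finrank hint0, hdeg] at h2
    exact h2.symm
  intro hM2
  have h3 : ℓ ∣ finrank F N0 * p.natDegree := hmul ▸ hM2.trans hdvd
  rcases hℓ.dvd_mul.1 h3 with h4 | h4
  · exact hE N0 hfin0 hN0E h4
  · exact hβ h4

theorem mem_of_maximal {ℓ : ℕ} (hℓ : ℓ.Prime) {E : IntermediateField F Ω}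
    (hE : Maximal (PrimeTo ℓ) E) (β : Ω) (hβ : ¬ ℓ ∣ (minpoly E β).natDegree) : β ∈ E := by
  have h1 := primeTo_adjoin hℓ hE.1 β hβ
  have h2 : E ≤ (adjoin E {β}).restrictScalars F := by
    intro x hx
    exact (adjoin E {β}).algebraMap_mem ⟨x, hx⟩
  exact hE.2 h1 h2 (mem_adjoin_simple_self E β)

/-- A polynomial whose degree is not divisible by `ℓ` has an irreducible factor with this
property. -/
theorem exists_factor {K : Type*} [Field K] {ℓ : ℕ} (f : K[X]) (hf : ¬ ℓ ∣ f.natDegree) :
    ∃ g : K[X], g.Monic ∧ Irreducible g ∧ g ∣ f ∧ ¬ ℓ ∣ g.natDegree := by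
  classical
  have hf0 : f ≠ 0 := by
    rintro rfl
    exact hf (by rw [natDegree_zero]; exact dvd_zero _)
  by_contra hcon
  push Not at hcon
  apply hf
  have h1 : f.natDegree = ((UniqueFactorizationMonoid.normalizedFactors f).map natDegree).sum := by
    rw [← natDegree_multiset_prod _ (fun h => ?_)]
    · exact (natDegree_eq_of_degree_eq (degree_eq_degree_of_associated
        (UniqueFactorizationMonoid.prod_normalizedFactors hf0))).symm
    · exact (UniqueFactorizationMonoid.irreducible_of_normalized_factor _ h).ne_zero rfl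
  rw [h1]
  apply Multiset.dvd_sum
  intro x hx
  obtain ⟨g, hg, rfl⟩ := Multiset.mem_map.1 hx
  have hirr := UniqueFactorizationMonoid.irreducible_of_normalized_factor _ hg
  refine hcon g ?_ hirr (UniqueFactorizationMonoid.dvd_of_mem_normalizedFactors hg)
  have h2 := UniqueFactorizationMonoid.normalize_normalized_factor _ hg
  rw [← h2]
  exact monic_normalize hirr.ne_zero

theorem exists_root_of_maximal [IsAlgClosed Ω] {ℓ : ℕ} (hℓ : ℓ.Prime)
    {E : IntermediateField F Ω} (hE : Maximal (PrimeTo ℓ) E) (f : E[X])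
    (hf : ¬ ℓ ∣ f.natDegree) : ∃ y : E, f.eval y = 0 := by
  obtain ⟨g, hgm, hg, hgf, hgd⟩ := exists_factor f hf
  have h1 : (g.map (algebraMap E Ω)).degree ≠ 0 := by
    rw [degree_map]
    exact (degree_pos_of_irreducible hg).ne'
  obtain ⟨β, hβ⟩ := IsAlgClosed.exists_root _ h1
  have h2 : aeval β g = 0 := by
    rw [← eval_map_algebraMap]
    exact hβ
  have h3 : minpoly E β = g := (minpoly.eq_of_irreducible_of_monic hg h2 hgm).symm
  have h4 : β ∈ E := mem_of_maximal hℓ hE β (by rw [h3]; exact hgd)
  refine ⟨⟨β, h4⟩, ?_⟩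
  have h5 : g.eval (⟨β, h4⟩ : E) = 0 := by
    apply (algebraMap E Ω).injective
    rw [map_zero, ← h2, ← eval₂_at_apply, aeval_def]
    rfl
  obtain ⟨q, rfl⟩ := hgf
  rw [eval_mul, h5, zero_mul]

end

/-- An algebraic extension all of whose finite subextensions have a degree prime to `ℓ` embeds into
the closure. -/
theorem exists_embedding {k K F Ω : Type*} [Field k] [Field K] [Field F] [Field Ω] [Algebra F Ω]
    [IsAlgClosed Ω] [Algebra.IsAlgebraic F Ω] [Algebra k K] [Algebra.IsAlgebraic k K]
    (i : k →+* F) {ℓ : ℕ} (hℓ : ℓ.Prime)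
    (hK : ∀ M : IntermediateField k K, FiniteDimensional k M → ¬ ℓ ∣ finrank k M) :
    ∃ σ : K →+* Ω, (∀ x : k, σ (algebraMap k K x) = algebraMap F Ω (i x)) ∧
      ∀ y : K, ¬ ℓ ∣ (minpoly F (σ y)).natDegree := by
  obtain ⟨E, hE⟩ := exists_maximal (F := F) (Ω := Ω) hℓ
  let _ : Algebra k E := ((algebraMap F E).comp i).toAlgebra
  obtain ⟨τ⟩ := Field.nonempty_algHom_of_exists_root (F := k) (E := K) (K := E) (by
    intro x
    have hx : IsIntegral k x := Algebra.IsIntegral.isIntegral x
    obtain ⟨y, hy⟩ := exists_root_of_maximal hℓ hE ((minpoly k x).map (algebraMap k E)) (by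
      rw [(minpoly.monic hx).natDegree_map, ← IntermediateField.adjoin.finrank hx]
      exact hK _ (adjoin.finiteDimensional hx))
    exact ⟨y, by rw [← eval_map_algebraMap]; exact hy⟩)
  refine ⟨(algebraMap E Ω).comp τ.toRingHom, fun x => ?_, fun y => ?_⟩
  · change algebraMap E Ω (τ (algebraMap k K x)) = _
    rw [τ.commutes]
    rfl
  · have h1 : IsIntegral F (algebraMap E Ω (τ y)) := Algebra.IsIntegral.isIntegral _
    change ¬ ℓ ∣ (minpoly F (algebraMap E Ω (τ y))).natDegree
    rw [← IntermediateField.adjoin.finrank h1]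
    exact hE.1 _ (adjoin.finiteDimensional h1) (adjoin_simple_le_iff.2 (τ y).2)

end Pool.Agent.Q312.AE
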