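import Pool.Agent.Q312.AE.Closure

/-!
# Separable polynomials of degree `ℓ` and extensions of degree prime to `ℓ`
-/

set_option autoImplicit false

namespace Pool.Agent.Q312.AE

open Polynomial IntermediateField Module

theorem degree_dvd_mul {κ₀ T W : Type*} [Field κ₀] [Field T] [Field W] [Algebra κ₀ T]
    [Algebra T W] [Algebra κ₀ W] [IsScalarTower κ₀ T W] [FiniteDimensional κ₀ T] {θ : W}
    (hθ : IsIntegral T θ) :
    (minpoly κ₀ θ).natDegree ∣ finrank κ₀ T * (minpoly T θ).natDegree := by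
  have hfin1 : FiniteDimensional T (adjoin T {θ}) := adjoin.finiteDimensional hθ
  have hfin2 : FiniteDimensional κ₀ (adjoin T {θ}) := FiniteDimensional.trans κ₀ T _
  have hmul : finrank κ₀ T * finrank T (adjoin T {θ}) = finrank κ₀ (adjoin T {θ}) :=
    finrank_mul_finrank κ₀ T (adjoin T {θ})
  rw [adjoin.finrank hθ] at hmul
  let θ' : adjoin T {θ} := ⟨θ, mem_adjoin_simple_self T θ⟩
  have hd : (minpoly κ₀ θ').natDegree ∣ finrank κ₀ (adjoin T {θ}) :=
    minpoly.degree_dvd (Algebra.IsIntegral.isIntegral θ')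
  have htow : IsScalarTower κ₀ (adjoin T {θ}) W := IsScalarTower.of_algebraMap_eq fun x => by
    rw [IsScalarTower.algebraMap_apply κ₀ T W,
      IsScalarTower.algebraMap_apply κ₀ T (adjoin T {θ})]
    rfl
  have hm : minpoly κ₀ θ' = minpoly κ₀ θ :=
    (minpoly.algebraMap_eq (algebraMap (adjoin T {θ}) W).injective θ').symm
  rw [hm, ← hmul] at hd
  exact hd

theorem irreducible_map {κ₀ κ₁ : Type*} [Field κ₀] [Field κ₁] [Algebra κ₀ κ₁] {ℓ : ℕ}
    (hℓ : ℓ.Prime) (h1 : ∀ y : κ₁, ¬ ℓ ∣ (minpoly κ₀ y).natDegree) {h : κ₀[X]}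
    (hirr : Irreducible h) (hsep : h.Separable) (hdeg : h.natDegree = ℓ) :
    Irreducible (h.map (algebraMap κ₀ κ₁)) := by
  classical
  have hnu : ¬ IsUnit (h.map (algebraMap κ₀ κ₁)) := by
    intro hu
    have h2 := natDegree_eq_zero_of_isUnit hu
    rw [natDegree_map, hdeg] at h2
    exact hℓ.ne_zero h2
  have hh0 : h.map (algebraMap κ₀ κ₁) ≠ 0 := Polynomial.map_ne_zero hirr.ne_zero
  obtain ⟨g', hg', hgh'⟩ := WfDvdMonoid.exists_irreducible_factor hnu hh0
  set g := normalize g' with hgdef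
  have hg : Irreducible g := (normalize_associated g').symm.irreducible hg'
  have hgh : g ∣ h.map (algebraMap κ₀ κ₁) := (normalize_dvd_iff).2 hgh'
  have hgm : g.Monic := monic_normalize hg'.ne_zero
  have hgd : g.natDegree ≤ ℓ := by
    have h2 := natDegree_le_of_dvd hgh hh0
    rwa [natDegree_map, hdeg] at h2
  have hg0 : 0 < g.natDegree := hg.natDegree_pos
  rcases hgd.eq_or_lt with heq | hlt
  · obtain ⟨q, hq⟩ := hgh
    have hq0 : q ≠ 0 := by
      rintro rfl
      rw [mul_zero] at hq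
      exact hh0 hq
    have h2 : q.natDegree = 0 := by
      have h3 := congrArg natDegree hq
      rw [natDegree_mul hg.ne_zero hq0, natDegree_map, hdeg, heq] at h3
      omega
    obtain ⟨c, hc⟩ := natDegree_eq_zero.1 h2
    have hc0 : c ≠ 0 := by
      rintro rfl
      rw [map_zero] at hc
      exact hq0 hc.symm
    have h3 : Associated g (h.map (algebraMap κ₀ κ₁)) := by
      refine ⟨((isUnit_C.2 (isUnit_iff_ne_zero.2 hc0)).unit), ?_⟩
      rw [IsUnit.unit_spec, hc, ← hq]
    exact h3.irreducible hg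
  · exfalso
    set Ω := AlgebraicClosure κ₁
    have hroots : ∀ r : Ω, aeval r g = 0 → aeval r h = 0 := by
      intro r hr
      obtain ⟨q, hq⟩ := hgh
      have h2 : aeval r (h.map (algebraMap κ₀ κ₁)) = 0 := by
        rw [hq, map_mul, hr, zero_mul]
      rwa [aeval_map_algebraMap] at h2
    have hsepr : ∀ r : Ω, aeval r g = 0 → r ∈ separableClosure κ₀ Ω := by
      intro r hr
      rw [mem_separableClosure_iff]
      exact hsep.of_dvd (minpoly.dvd _ _ (hroots r hr))
    have hcoef : ∀ j, IsSeparable κ₀ (g.coeff j) := by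
      intro j
      have h2 := (IsAlgClosed.splits (g.map (algebraMap κ₁ Ω))).eq_prod_roots_of_monic (hgm.map _)
      have h3 : g.map (algebraMap κ₁ Ω) ∈ liftsRing (algebraMap (separableClosure κ₀ Ω) Ω) := by
        rw [h2]
        apply multiset_prod_mem
        intro q hq
        obtain ⟨a, ha, rfl⟩ := Multiset.mem_map.1 hq
        have h4 : a ∈ separableClosure κ₀ Ω := hsepr a (mem_aroots'.1 ha).2
        exact ⟨X - C ⟨a, h4⟩, by
          rw [coe_mapRingHom, Polynomial.map_sub, map_X, map_C]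
          rfl⟩
      obtain ⟨p, hp⟩ := h3
      have h4 : (g.map (algebraMap κ₁ Ω)).coeff j =
          algebraMap (separableClosure κ₀ Ω) Ω (p.coeff j) := by
        rw [← hp, coe_mapRingHom, coeff_map]
      rw [coeff_map] at h4
      have h5 : IsSeparable κ₀ (algebraMap κ₁ Ω (g.coeff j)) := by
        rw [h4]
        exact mem_separableClosure_iff.1 (p.coeff j).2
      unfold IsSeparable at h5 ⊢
      rwa [minpoly.algebraMap_eq (algebraMap κ₁ Ω).injective] at h5
    set T := adjoin κ₀ (g.coeffs : Set κ₁) with hT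
    have hTs : ∀ x ∈ (g.coeffs : Set κ₁), IsSeparable κ₀ x := by
      intro x hx
      obtain ⟨n, -, rfl⟩ := mem_coeffs_iff.1 hx
      exact hcoef n
    have hfin : FiniteDimensional κ₀ T :=
      finiteDimensional_adjoin fun x hx => (hTs x hx).isIntegral
    have hsT : Algebra.IsSeparable κ₀ T := (isSeparable_adjoin_iff_isSeparable _ _).2 hTs
    obtain ⟨α, hα⟩ := Field.exists_primitive_element κ₀ T
    have hTd : ¬ ℓ ∣ finrank κ₀ T := by
      have h2 : finrank κ₀ T = (minpoly κ₀ (α : κ₁)).natDegree := by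
        have h3 : (minpoly κ₀ (α : κ₁)) = minpoly κ₀ α :=
          minpoly.algebraMap_eq (algebraMap T κ₁).injective α
        rw [h3, ← IntermediateField.adjoin.finrank (Algebra.IsIntegral.isIntegral α), hα,
          IntermediateField.finrank_top']
      rw [h2]
      exact h1 _
    obtain ⟨θ, hθ⟩ := IsAlgClosed.exists_root (g.map (algebraMap κ₁ Ω)) (by
      rw [degree_map]
      exact (degree_pos_of_irreducible hg).ne')
    have hθ1 : aeval θ g = 0 := by
      rw [← eval_map_algebraMap]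
      exact hθ
    have hlift : g ∈ lifts (algebraMap T κ₁) := by
      rw [lifts_iff_coeff_lifts]
      intro n
      by_cases h0 : g.coeff n = 0
      · exact ⟨0, by rw [h0, map_zero]⟩
      · exact ⟨⟨g.coeff n, subset_adjoin _ _ (coeff_mem_coeffs h0)⟩, rfl⟩
    obtain ⟨gT, hgT, hgTd, hgTm⟩ := lifts_and_natDegree_eq_and_monic hlift hgm
    have hθT : aeval θ gT = 0 := by
      rw [← hθ1, ← hgT, aeval_map_algebraMap]
    have hintT : IsIntegral T θ := ⟨gT, hgTm, hθT⟩
    have hUd : ¬ ℓ ∣ (minpoly T θ).natDegree := by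
      refine Nat.not_dvd_of_pos_of_lt (minpoly.natDegree_pos hintT) (lt_of_le_of_lt ?_ hlt)
      rw [← hgTd]
      exact natDegree_le_of_dvd (minpoly.dvd _ _ hθT) hgTm.ne_zero
    have hd : (minpoly κ₀ θ).natDegree ∣ finrank κ₀ T * (minpoly T θ).natDegree :=
      degree_dvd_mul hintT
    have hdl : (minpoly κ₀ θ).natDegree = ℓ := by
      rw [← minpoly.eq_of_irreducible hirr (hroots θ hθ1), ← hdeg]
      exact natDegree_mul_C (inv_ne_zero (leadingCoeff_ne_zero.2 hirr.ne_zero))
    rw [hdl] at hd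
    rcases hℓ.dvd_mul.1 hd with h2 | h2
    · exact hTd h2
    · exact hUd h2

end Pool.Agent.Q312.AE
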