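import Pool.Agent.Q312.AE.Res
import Pool.Agent.Q312.AE.Irr
import Pool.Agent.TH686.NF.Transfer

/-!
# Residue degrees in extensions of degree prime to `ℓ`
-/

set_option autoImplicit false
set_option linter.unusedSectionVars false

namespace Pool.Agent.Q312.AE

open Polynomial NNReal Pool.Agent.TH686.NF IsLocalRing

/-- A monic polynomial all of whose irreducible factors are equal. -/
theorem degree_dvd_of_factors {κ : Type*} [Field κ] {f μ : κ[X]} (hf : f ≠ 0)
    (h : ∀ ψ : κ[X], ψ.Monic → Irreducible ψ → ψ ∣ f → ψ = μ) : μ.natDegree ∣ f.natDegree := by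
  classical
  have h1 : f.natDegree = ((UniqueFactorizationMonoid.normalizedFactors f).map natDegree).sum := by
    rw [← natDegree_multiset_prod _ (fun h => ?_)]
    · exact (natDegree_eq_of_degree_eq (degree_eq_degree_of_associated
        (UniqueFactorizationMonoid.prod_normalizedFactors hf))).symm
    · exact (UniqueFactorizationMonoid.irreducible_of_normalized_factor _ h).ne_zero rfl
  rw [h1]
  apply Multiset.dvd_sum
  intro x hx
  obtain ⟨g, hg, rfl⟩ := Multiset.mem_map.1 hx
  have hirr := UniqueFactorizationMonoid.irreducible_of_normalized_factor _ hg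
  have hm : g.Monic := by
    rw [← UniqueFactorizationMonoid.normalize_normalized_factor _ hg]
    exact monic_normalize hirr.ne_zero
  rw [h g hm hirr (UniqueFactorizationMonoid.dvd_of_mem_normalizedFactors hg)]

section

variable {F Ω : Type*} [Field F] [Field Ω] [Algebra F Ω] [IsAlgClosed Ω]
  [Algebra.IsAlgebraic F Ω] (V : Valuation Ω ℝ≥0)
  {k K : Type*} [Field k] [Field K] [Algebra k K]
  (v : Valuation k ℝ≥0) (w : Valuation K ℝ≥0) (hw : ∀ x, w (algebraMap k K x) = v x)
  (i : k →+* F) (σ : K →+* Ω)

/-- the map between the residue fields -/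
noncomputable def resMap : ResidueField v.valuationSubring →+* ResidueField w.valuationSubring :=
  ResidueField.map (jj v w (algebraMap k K) hw)

theorem residue_degree (hV : ∀ (τ : Ω ≃ₐ[F] Ω) (x : Ω), V (τ x) = V x)
    (hi : ∀ a : k, V (algebraMap F Ω (i a)) = v a)
    (hdense : ∀ c : F, V (algebraMap F Ω c) ≤ 1 → ∃ b : k, V (algebraMap F Ω (c - i b)) < 1)
    (hσ : ∀ x, σ (algebraMap k K x) = algebraMap F Ω (i x)) (hσw : ∀ y, V (σ y) = w y)
    {ℓ : ℕ} (hℓ : ∀ y : K, ¬ ℓ ∣ (minpoly F (σ y)).natDegree)
    (y : ResidueField w.valuationSubring) :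
    letI := (resMap v w hw).toAlgebra
    ¬ ℓ ∣ (minpoly (ResidueField v.valuationSubring) y).natDegree := by
  let _ : Algebra (ResidueField v.valuationSubring) (ResidueField w.valuationSubring) :=
    (resMap v w hw).toAlgebra
  change ¬ ℓ ∣ (minpoly (ResidueField v.valuationSubring) y).natDegree
  obtain ⟨y, rfl⟩ := residue_surjective y
  obtain ⟨g, hgm, hgd, hg⟩ := exists_reduction V v i hV hi hdense (σ y) (by rw [hσw]; exact y.2)
  have hred : (minpoly (ResidueField v.valuationSubring)
      (residue w.valuationSubring y)).natDegree ∣ (g.map (residue v.valuationSubring)).natDegree := by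
    refine degree_dvd_of_factors (hgm.map _).ne_zero fun ψ hψm hψ hψg => ?_
    apply minpoly.eq_of_irreducible_of_monic hψ _ hψm
    have hl : ψ ∈ lifts (residue v.valuationSubring) := by
      rw [lifts_iff_coeff_lifts]
      intro n
      exact residue_surjective _
    obtain ⟨P, hP, hPd, hPm⟩ := lifts_and_natDegree_eq_and_monic hl hψm
    obtain ⟨q, hq⟩ := hψg
    obtain ⟨Q, hQ⟩ : ∃ Q : v.valuationSubring[X], Q.map (residue v.valuationSubring) = q :=
      map_surjective _ residue_surjective q
    have h1 := hg P Q hPm (by rw [hPd]; exact hψ.natDegree_pos.ne') (by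
      intro j
      have h2 : residue v.valuationSubring ((g - P * Q).coeff j) = 0 := by
        rw [← coeff_map, Polynomial.map_sub, Polynomial.map_mul, hP, hQ, hq, sub_self, coeff_zero]
      rw [residue_eq_zero_iff, mem_maximalIdeal, mem_nonunits_iff, isUnit_iff v] at h2
      exact lt_of_le_of_ne ((g - P * Q).coeff j).2 h2)
    have h3 : aeval (σ (y : K)) (toF v i P) =
        σ (((P.map (jj v w (algebraMap k K) hw)).eval y : w.valuationSubring) : K) := by
      have e1 : (((P.map (jj v w (algebraMap k K) hw)).eval y : w.valuationSubring) : K) =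
          eval₂ ((algebraMap k K).comp v.valuationSubring.subtype) (y : K) P := by
        rw [eval_map]
        have := hom_eval₂ P (jj v w (algebraMap k K) hw) w.valuationSubring.subtype y
        exact this
      rw [e1, hom_eval₂, aeval_def, toF, eval₂_map]
      congr 1
      ext a
      change algebraMap F Ω (i (a : k)) = σ (algebraMap k K (a : k))
      rw [hσ]
    rw [h3, hσw] at h1
    have h4 : residue w.valuationSubring ((P.map (jj v w (algebraMap k K) hw)).eval y) = 0 := by
      rw [residue_eq_zero_iff, mem_maximalIdeal, mem_nonunits_iff, isUnit_iff w]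
      exact h1.ne
    rw [← hP, aeval_def, eval₂_map, ← h4, ← eval₂_at_apply, eval₂_map]
    rfl
  rw [hgm.natDegree_map, hgd] at hred
  intro hdvd
  exact hℓ y (hdvd.trans hred)

end

end Pool.Agent.Q312.AE
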