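import Pool.Agent.Q312.AE.Deg
import Pool.Agent.TH686.NF.Ram
import Pool.Agent.Results.MP_3554b5_lc.UnramifiedNorms

/-!
# Extensions of valuations to algebraic extensions of degree prime to `ℓ`
-/

set_option autoImplicit false
set_option linter.unusedSectionVars false

namespace Pool.Agent.Q312.AE

open Polynomial NNReal Pool.Agent.TH686.NF IsLocalRing IntermediateField Module
open Pool.Agent.Results.MP_3554b5_lc.UnramifiedNorms

section

variable (F : Type) [NontriviallyNormedField F] [IsUltrametricDist F] [CompleteSpace F]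

/-- the spectral norm -/
noncomputable def specNorm (x : AlgebraicClosure F) : ℝ≥0 :=
  ⟨spectralNorm F (AlgebraicClosure F) x, spectralNorm_nonneg x⟩

theorem coe_specNorm (x : AlgebraicClosure F) :
    (specNorm F x : ℝ) = spectralMulAlgNorm F (AlgebraicClosure F) x := rfl

/-- the spectral norm as a valuation of the algebraic closure -/
noncomputable def specVal : Valuation (AlgebraicClosure F) ℝ≥0 where
  toFun := specNorm F
  map_zero' := NNReal.coe_injective (by rw [coe_specNorm, map_zero]; rfl)
  map_one' := NNReal.coe_injective (by rw [coe_specNorm, map_one]; rfl)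
  map_mul' x y := NNReal.coe_injective (by
    rw [NNReal.coe_mul, coe_specNorm, coe_specNorm, coe_specNorm, map_mul])
  map_add_le_max' x y := by
    have h := isNonarchimedean_spectralNorm (K := F) (L := AlgebraicClosure F) x y
    rw [← NNReal.coe_le_coe, NNReal.coe_max]
    exact h

theorem coe_specVal (x : AlgebraicClosure F) :
    (specVal F x : ℝ) = spectralNorm F (AlgebraicClosure F) x := rfl

theorem specVal_algebraMap (c : F) : (specVal F (algebraMap F _ c) : ℝ) = ‖c‖ :=
  spectralNorm_extends c

theorem specVal_conj (σ : AlgebraicClosure F ≃ₐ[F] AlgebraicClosure F) (x : AlgebraicClosure F) :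
    specVal F (σ x) = specVal F x :=
  NNReal.coe_injective (spectralNorm_eq_of_equiv σ x).symm

end

/-- Extension of valuations. -/
theorem exists_extension_val {k K : Type} [Field k] [Field K] [Algebra k K]
    [Algebra.IsAlgebraic k K] {ℓ : ℕ} (hℓ : ℓ.Prime)
    (hK : ∀ M : IntermediateField k K, FiniteDimensional k M → ¬ ℓ ∣ finrank k M)
    (v : Valuation k ℝ≥0) (a : k) (ha : ∀ c, v a ≠ v c ^ ℓ) (hext : (ofValuation v).HasExtension ℓ) :
    ∃ w : Valuation K ℝ≥0, (∀ x, w (algebraMap k K x) = v x) ∧
      (∀ c : K, w (algebraMap k K a) ≠ w c ^ ℓ) ∧ (ofValuation w).HasExtension ℓ := by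
  have ha0 : a ≠ 0 := by
    rintro rfl
    exact ha 0 (by rw [map_zero, zero_pow hℓ.ne_zero])
  have hgt : ∃ b, 1 < v b := by
    rcases lt_trichotomy (v a) 1 with h | h | h
    · refine ⟨a⁻¹, ?_⟩
      rw [map_inv₀]
      exact (one_lt_inv₀ (pos_iff_ne_zero.2 ((Valuation.ne_zero_iff _).2 ha0))).2 h
    · exact absurd (by rw [h, map_one, one_pow]) (ha 1)
    · exact ⟨a, h⟩
  let _ : NontriviallyNormedField (Cp v) := ntr v hgt
  have hcpl : CompleteSpace (Cp v) := inferInstance
  set V := specVal (Cp v) with hVdef
  have hnorm : ∀ c : Cp v, (V (algebraMap (Cp v) _ c) : ℝ) = ‖c‖ := specVal_algebraMap (Cp v)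
  have hi : ∀ b : k, V (algebraMap (Cp v) _ (emb v b)) = v b := by
    intro b
    apply NNReal.coe_injective
    rw [hnorm]
    exact norm_emb v b
  have hnv : ∀ c : Cp v, V (algebraMap (Cp v) _ c) = NormedField.valuation c := by
    intro c
    apply NNReal.coe_injective
    rw [hnorm]
    rfl
  have hdense : ∀ c : Cp v, V (algebraMap (Cp v) _ c) ≤ 1 →
      ∃ b : k, V (algebraMap (Cp v) _ (c - emb v b)) < 1 := by
    intro c hc
    by_cases h0 : c = 0
    · refine ⟨0, ?_⟩
      rw [h0, map_zero, sub_zero, map_zero, map_zero]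
      exact one_pos
    · obtain ⟨b, hb⟩ := near v c h0
      refine ⟨b, ?_⟩
      rw [hnv] at hc ⊢
      exact hb.trans_le hc
  have hval : ∀ c : Cp v, c ≠ 0 → ∃ b : k, V (algebraMap (Cp v) _ c) = v b := by
    intro c h0
    obtain ⟨b, hb⟩ := near v c h0
    refine ⟨b, ?_⟩
    rw [← hi b, hnv, hnv]
    have e1 : emb v b = c - (c - emb v b) := by ring
    conv_rhs => rw [e1]
    exact (Valuation.map_sub_eq_of_lt_left _ hb).symm
  obtain ⟨σ, hσ1, hσ2⟩ := exists_embedding (F := Cp v) (Ω := AlgebraicClosure (Cp v))
    (emb v) hℓ hK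
  let w : Valuation K ℝ≥0 := V.comap σ
  have hwσ : ∀ y, V (σ y) = w y := fun y => rfl
  have hw : ∀ x, w (algebraMap k K x) = v x := by
    intro x
    rw [← hwσ, hσ1, hi]
  refine ⟨w, hw, fun c hc => ?_, ?_⟩
  · rw [hw, ← hwσ] at hc
    obtain ⟨b, hb⟩ := value_pow V v (emb v) (specVal_conj (Cp v)) hi hval hℓ (hσ2 c) hc.symm
    exact ha b hb
  · obtain ⟨L, fL, aL, sL, hL⟩ := hext
    change Algebra (ResidueField v.valuationSubring) L at aL
    change Algebra.IsSeparable (ResidueField v.valuationSubring) L at sL
    change finrank (ResidueField v.valuationSubring) L = ℓ at hL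
    have hfin : FiniteDimensional (ResidueField v.valuationSubring) L :=
      FiniteDimensional.of_finrank_pos (by rw [hL]; exact hℓ.pos)
    obtain ⟨α, hα⟩ := Field.exists_primitive_element (ResidueField v.valuationSubring) L
    set h := minpoly (ResidueField v.valuationSubring) α with hh
    have hint : IsIntegral (ResidueField v.valuationSubring) α := Algebra.IsIntegral.isIntegral α
    have hirr : Irreducible h := minpoly.irreducible hint
    have hsep : h.Separable := Algebra.IsSeparable.isSeparable _ α
    have hdeg : h.natDegree = ℓ := by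
      rw [← hL, ← IntermediateField.finrank_top', ← hα]
      exact (IntermediateField.adjoin.finrank hint).symm
    let _ : Algebra (ResidueField v.valuationSubring) (ResidueField w.valuationSubring) :=
      (resMap v w hw).toAlgebra
    have hres : ∀ y : ResidueField w.valuationSubring,
        ¬ ℓ ∣ (minpoly (ResidueField v.valuationSubring) y).natDegree := fun y =>
      residue_degree V v w hw (emb v) σ (specVal_conj (Cp v)) hi hdense hσ1 hwσ hσ2 y
    have h1 := irreducible_map hℓ hres hirr hsep hdeg
    have h2 : (h.map (algebraMap (ResidueField v.valuationSubring)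
      (ResidueField w.valuationSubring))).Separable := hsep.map
    have _ : Fact (Irreducible (h.map (algebraMap (ResidueField v.valuationSubring)
      (ResidueField w.valuationSubring)))) := ⟨h1⟩
    refine ⟨AdjoinRoot (h.map (algebraMap (ResidueField v.valuationSubring)
      (ResidueField w.valuationSubring))), inferInstance,
      (inferInstance : Algebra (ResidueField w.valuationSubring) _), ?_, ?_⟩
    · exact isSeparable_adjoinRoot h1 h2
    · have h3 := (AdjoinRoot.powerBasis h1.ne_zero).finrank
      rw [AdjoinRoot.powerBasis_dim, natDegree_map, hdeg] at h3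
      exact h3

end Pool.Agent.Q312.AE
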