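import Pool.Agent.Q312.AE.Main

/-!
# Finitely generated fields as fraction fields of finitely generated rings
-/

set_option autoImplicit false

namespace Pool.Agent.Q312.AE

open Polynomial NNReal IsLocalRing IntermediateField Module
open Pool.Agent.Results.MP_3554b5_lc.UnramifiedNorms Pool.Agent.Y562.NN

theorem jacobson_int : IsJacobsonRing ℤ := by
  rw [isJacobsonRing_iff_prime_eq]
  intro P hP
  by_cases h0 : P = ⊥
  · subst h0
    rw [eq_bot_iff]
    intro x hx
    rw [Ideal.mem_bot]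
    by_contra hx0
    obtain ⟨p, hp, hpp⟩ := Nat.exists_infinite_primes (x.natAbs + 1)
    have h1 : (Ideal.span {(p : ℤ)}).IsMaximal :=
      PrincipalIdealRing.isMaximal_of_irreducible (Nat.prime_iff_prime_int.1 hpp).irreducible
    have h2 : x ∈ Ideal.span {(p : ℤ)} := by
      rw [Ideal.jacobson, Submodule.mem_sInf] at hx
      exact hx _ ⟨bot_le, h1⟩
    rw [Ideal.mem_span_singleton] at h2
    have h3 := Int.natAbs_dvd_natAbs.2 h2
    rw [Int.natAbs_natCast] at h3
    have h4 := Nat.le_of_dvd (Int.natAbs_pos.2 hx0) h3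
    omega
  · have h1 : P.IsMaximal := Ideal.IsPrime.isMaximal hP h0
    exact Ideal.jacobson_eq_self_of_isMaximal

/-- Fields which are finitely generated rings are finite. -/
theorem finite_field (κ : Type) [Field κ] [Algebra.FiniteType ℤ κ] : Finite κ := by
  have hJ := jacobson_int
  have h1 : Module.Finite ℤ κ := finite_of_finite_type_of_isJacobsonRing ℤ κ
  have h2 : Algebra.IsIntegral ℤ κ := inferInstance
  obtain ⟨p, hp⟩ := CharP.exists κ
  have hp0 : p ≠ 0 := by
    rintro rfl
    have h3 : CharZero κ := CharP.charP_to_charZero κ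
    have h4 : Function.Injective (algebraMap ℤ κ) := by
      rw [Subsingleton.elim (algebraMap ℤ κ) (Int.castRingHom κ)]
      exact Int.cast_injective
    exact Int.not_isField (isField_of_isIntegral_of_isField h4 (Field.toIsField κ))
  refine Module.finite_of_fg_torsion κ ?_
  intro x
  refine ⟨⟨(p : ℤ), mem_nonZeroDivisors_of_ne_zero (by exact_mod_cast hp0)⟩, ?_⟩
  change (p : ℤ) • x = 0
  rw [zsmul_eq_mul, Int.cast_natCast, CharP.cast_eq_zero, zero_mul]

theorem hasSep_of_finite (κ : Type) [Field κ] [Finite κ] {ℓ : ℕ} (hℓ : ℓ ≠ 0) : HasSep κ ℓ := by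
  obtain ⟨p, hp⟩ := CharP.exists κ
  have hpp : Fact p.Prime := ⟨CharP.char_is_prime κ p⟩
  have hne : NeZero ℓ := ⟨hℓ⟩
  refine ⟨FiniteField.Extension κ p ℓ, inferInstance, inferInstance, inferInstance, ?_⟩
  exact FiniteField.finrank_extension κ p ℓ

theorem finiteType_int (R : Type) [CommRing R] (a b : Algebra ℤ R)
    (h : @Algebra.FiniteType ℤ R _ _ a) : @Algebra.FiniteType ℤ R _ _ b := by
  rwa [Subsingleton.elim b a]

theorem infinite_maximal (A : Type) [CommRing A] [IsDomain A] [Algebra.FiniteType ℤ A]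
    [Infinite A] : {𝔪 : Ideal A | 𝔪.IsMaximal ∧ 𝔪 ≠ ⊥}.Infinite := by
  classical
  have hnf : ¬ IsField A := by
    intro h
    have h1 : Finite A := @finite_field A h.toField ‹_›
    exact not_finite A
  intro hfin
  have hJ := jacobson_int
  have hJA : IsJacobsonRing A := isJacobsonRing_of_finiteType (A := ℤ)
  have h0 : (⊥ : Ideal A).jacobson = ⊥ := isJacobsonRing_iff_prime_eq.1 hJA ⊥ Ideal.isPrime_bot
  have h1 : ∀ J ∈ hfin.toFinset, ∃ x ∈ J, x ≠ 0 := by
    intro J hJ
    exact Submodule.exists_mem_ne_zero_of_ne_bot (hfin.mem_toFinset.1 hJ).2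
  choose! x hx hx0 using h1
  have h2 : ∏ J ∈ hfin.toFinset, x J ≠ 0 := Finset.prod_ne_zero_iff.2 hx0
  apply h2
  have h5 : ∏ J ∈ hfin.toFinset, x J ∈ (⊥ : Ideal A).jacobson := by
    rw [Ideal.jacobson, Submodule.mem_sInf]
    rintro J ⟨-, hJm⟩
    have h3 : J ∈ hfin.toFinset :=
      hfin.mem_toFinset.2 ⟨hJm, Ring.ne_bot_of_isMaximal_of_not_isField hJm hnf⟩
    exact Ideal.mem_of_dvd J (Finset.dvd_prod_of_mem x h3) (hx J h3)
  rw [h0] at h5
  exact Ideal.mem_bot.1 h5

/-- Algebraic extensions of infinite finitely generated fields. -/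
theorem not_fg {ℓ : ℕ} (hℓ : ℓ.Prime) (N : ℕ) (K : Type) [Field K]
    (hN : ∀ v : Fin N → Valuation K ℝ≥0, (Pairwise fun i j => ∃ x, v i x < 1 ∧ 1 < v j x) →
        ∃ i, (ofValuation (v i)).TameUpTo ℓ)
    (k : Type) [Field k] [Infinite k] [hk : Field.FG k] [Algebra k K] [Algebra.IsAlgebraic k K]
    (hb : BoundedPart ℓ k K) : False := by
  classical
  obtain ⟨s, hs⟩ := hk.finitely_generated
  let A : Subalgebra ℤ k := Algebra.adjoin ℤ (s : Set k)
  have hft : Algebra.FiniteType ℤ A := (Subalgebra.fg_iff_finiteType A).1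
    (Subalgebra.fg_adjoin_finset s)
  have hnoeth : IsNoetherianRing A := Algebra.FiniteType.isNoetherianRing ℤ A
  have hdiv : ∀ z : k, ∃ x y : A, z = algebraMap A k x / algebraMap A k y := by
    intro z
    have h1 : z ∈ Subfield.closure (s : Set k) := by rw [hs]; trivial
    obtain ⟨x, hx, y, hy, rfl⟩ := Subfield.mem_closure_iff.1 h1
    have h2 : ∀ x, x ∈ Subring.closure (s : Set k) → x ∈ A := by
      intro x hx
      change x ∈ Algebra.adjoin ℤ (s : Set k)
      rw [Algebra.adjoin_int]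
      exact hx
    exact ⟨⟨x, h2 x hx⟩, ⟨y, h2 y hy⟩, rfl⟩
  have hfrac : IsFractionRing A k := IsFractionRing.of_field A k hdiv
  have hinf : Infinite A := by
    by_contra hfin
    rw [not_infinite_iff_finite] at hfin
    have h1 : Function.Surjective (fun p : A × A => algebraMap A k p.1 / algebraMap A k p.2) := by
      intro z
      obtain ⟨x, y, hz⟩ := hdiv z
      exact ⟨(x, y), hz.symm⟩
    have h2 : Finite k := Finite.of_surjective _ h1
    exact not_finite k
  have hdim := dim_le_one' hℓ N K hN A k hb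
  rw [ringKrullDim_le_iff_height_le] at hdim
  obtain ⟨P, hP1, hP2⟩ := exists_seq {𝔪 : Ideal A | 𝔪.IsMaximal ∧ 𝔪 ≠ ⊥} N (by
    rw [(infinite_maximal A).encard_eq]
    exact le_top)
  have hp : ∀ i, (P i).IsPrime := fun i => (hP2 i).1.isPrime
  refine main_step' hℓ N K hN A k hb P hP1 hp (fun i => (hP2 i).2) (fun i => ?_) (fun i => ?_)
  · have h2 := hdim (hp i)
    exact_mod_cast h2
  · have hm : (P i).IsMaximal := (hP2 i).1
    refine hasSepAll_of_quotient (P i) ℓ fun κ _ f hf => ?_
    have h3 : Algebra.FiniteType ℤ (A ⧸ P i) :=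
      hft.of_surjective (Ideal.Quotient.mkₐ ℤ (P i)) Ideal.Quotient.mk_surjective
    let _ : Field (A ⧸ P i) := Ideal.Quotient.field (P i)
    have h4 : Finite (A ⧸ P i) := @finite_field (A ⧸ P i) _ (finiteType_int _ _ _ h3)
    let _ : Algebra (A ⧸ P i) κ := f.toAlgebra
    have h5 : Module.Finite (A ⧸ P i) κ := hf
    have h6 : Finite κ := Module.finite_of_finite (A ⧸ P i)
    exact hasSep_of_finite κ hℓ.ne_zero

end Pool.Agent.Q312.AE
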