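import Pool.Agent.Q312.AE.Ext
import Pool.Agent.Y562.NN.Main

/-!
# Algebraic extensions of fraction fields of Noetherian domains
-/

set_option autoImplicit false

namespace Pool.Agent.Q312.AE

open Polynomial NNReal IsLocalRing IntermediateField Module
open Pool.Agent.Results.MP_3554b5_lc.UnramifiedNorms Pool.Agent.Y562.NN

/-- The field `κ` has a separable extension of degree `ℓ`. -/
def HasSep (κ : Type) [Field κ] (ℓ : ℕ) : Prop :=
  ∃ (L : Type) (_ : Field L) (_ : Algebra κ L), Algebra.IsSeparable κ L ∧ finrank κ L = ℓ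

/-- Algebraic extensions whose degree is not divisible by an arbitrarily large power of `ℓ`. -/
def BoundedPart (ℓ : ℕ) (k K : Type) [Field k] [Field K] [Algebra k K] : Prop :=
  ∃ m : ℕ, ∀ L : IntermediateField k K, FiniteDimensional k L → ¬ ℓ ^ m ∣ finrank k L

theorem hasSep_of_dvr (κ : Type) [Field κ] (V : ValuationSubring κ)
    (hV : IsDiscreteValuationRing V) {d : ℕ} (hd : 2 ≤ d) : HasSep κ d := by
  obtain ⟨ϖ, hϖ⟩ := IsDiscreteValuationRing.exists_irreducible V
  set f : V[X] := X ^ d - (C ϖ * X + C ϖ) with hf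
  have hlow : (C ϖ * X + C ϖ : V[X]).degree < d :=
    degree_linear_le.trans_lt (by exact_mod_cast (by omega : 1 < d))
  have hfm : f.Monic := monic_X_pow_sub hlow
  have hfd : f.natDegree = d := by
    rw [hf, natDegree_sub_eq_left_of_natDegree_lt, natDegree_X_pow]
    rw [natDegree_X_pow]
    exact lt_of_le_of_lt (natDegree_linear_le) (by omega)
  have hmax : maximalIdeal V = Ideal.span {ϖ} := (IsDiscreteValuationRing.irreducible_iff_uniformizer ϖ).1 hϖ
  have heis : f.IsEisensteinAt (maximalIdeal V) := by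
    refine ⟨?_, ?_, ?_⟩
    · rw [hfm.leadingCoeff]
      exact fun h => (maximalIdeal.isMaximal V).ne_top ((Ideal.eq_top_iff_one _).2 h)
    · intro n hn
      rw [hfd] at hn
      rw [hf, coeff_sub, coeff_X_pow, if_neg hn.ne, zero_sub, coeff_add, coeff_C_mul, hmax]
      apply Submodule.neg_mem
      apply Submodule.add_mem
      · exact Ideal.mul_mem_right _ _ (Ideal.mem_span_singleton_self ϖ)
      · rw [coeff_C]
        split_ifs
        · exact Ideal.mem_span_singleton_self ϖ
        · exact Submodule.zero_mem _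
    · rw [hf, coeff_sub, coeff_X_pow, if_neg (by omega), zero_sub, coeff_add, coeff_C_mul,
        coeff_X_zero, mul_zero, zero_add, coeff_C_zero, hmax, Ideal.span_singleton_pow, Ideal.neg_mem_iff,
        Ideal.mem_span_singleton]
      rintro ⟨c, hc⟩
      rw [sq, mul_assoc] at hc
      have h1 : ϖ * 1 = ϖ * (ϖ * c) := by rw [mul_one]; exact hc
      have h2 := mul_left_cancel₀ hϖ.ne_zero h1
      exact hϖ.not_isUnit (IsUnit.of_mul_eq_one c h2.symm)
  have hirr : Irreducible f :=
    heis.irreducible (maximalIdeal.isMaximal V).isPrime hfm.isPrimitive (by rw [hfd]; omega)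
  set G : κ[X] := f.map (algebraMap V κ) with hG
  have hGi : Irreducible G := hfm.irreducible_iff_irreducible_map_fraction_map.1 hirr
  have hGs : G.Separable := by
    rw [separable_iff_derivative_ne_zero hGi]
    intro h
    have h1 : (derivative G).coeff 0 = 0 := by rw [h, coeff_zero]
    rw [coeff_derivative, hG, coeff_map, hf, coeff_sub, coeff_X_pow, if_neg (by omega), zero_sub,
      coeff_add, coeff_C_mul, coeff_X_one, mul_one, coeff_C, if_neg (by omega), add_zero] at h1
    rw [Nat.cast_zero, zero_add, mul_one, map_neg, neg_eq_zero] at h1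
    exact hϖ.ne_zero (Subtype.ext h1)
  have _ : Fact (Irreducible G) := ⟨hGi⟩
  refine ⟨AdjoinRoot G, inferInstance, inferInstance,
    Pool.Agent.TH686.NF.isSeparable_adjoinRoot hGi hGs, ?_⟩
  rw [(AdjoinRoot.powerBasis hGi.ne_zero).finrank, AdjoinRoot.powerBasis_dim, hG,
    hfm.natDegree_map, hfd]

/-- every finite extension of `κ` has a separable extension of degree `ℓ` -/
def HasSepAll (κ : Type) [Field κ] (ℓ : ℕ) : Prop :=
  ∀ (κ' : Type) [Field κ'] (f : κ →+* κ'), f.Finite → HasSep κ' ℓ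

theorem hasSepAll_of_not_maximal {A : Type} [CommRing A] [IsDomain A] [IsNoetherianRing A]
    (P : Ideal A) [P.IsPrime] (hP : ¬ P.IsMaximal) {d : ℕ} (hd : 2 ≤ d) :
    HasSepAll P.ResidueField d := by
  intro κ _ f hf
  let _ : Algebra P.ResidueField κ := f.toAlgebra
  let _ : Algebra (A ⧸ P) κ := (f.comp (algebraMap (A ⧸ P) P.ResidueField)).toAlgebra
  have h1 : IsScalarTower (A ⧸ P) P.ResidueField κ := IsScalarTower.of_algebraMap_eq' rfl
  have h2 : FiniteDimensional P.ResidueField κ := hf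
  have h3 : ¬ IsField (A ⧸ P) := fun h => hP (Ideal.Quotient.maximal_of_isField P h)
  obtain ⟨b, hb0, hb⟩ := Ring.exists_not_isUnit_of_not_isField h3
  have h4 : Ideal.span {b} ≠ ⊤ := by
    rw [Ne, Ideal.span_singleton_eq_top]
    exact hb
  obtain ⟨𝔮, h𝔮⟩ := Ideal.nonempty_minimalPrimes h4
  have hp : 𝔮.IsPrime := h𝔮.1.1
  have h5 : 𝔮.height ≤ 1 := Ideal.height_le_one_of_isPrincipal_of_mem_minimalPrimes _ 𝔮 h𝔮
  have h6 : 𝔮 ≠ ⊥ := by
    rintro rfl
    exact hb0 (h𝔮.1.2 (Ideal.mem_span_singleton_self b))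
  obtain ⟨V, hV, -⟩ := exists_dvr (A ⧸ P) P.ResidueField κ 𝔮 h6 h5
  exact hasSep_of_dvr κ V hV hd

/-- the condition in terms of the quotient ring, for maximal ideals -/
theorem hasSepAll_of_quotient {A : Type} [CommRing A] (P : Ideal A) [P.IsMaximal] (ℓ : ℕ)
    (h : ∀ (κ : Type) [Field κ] (f : A ⧸ P →+* κ), f.Finite → HasSep κ ℓ) :
    HasSepAll P.ResidueField ℓ := by
  intro κ _ g hg
  refine h κ (g.comp (algebraMap (A ⧸ P) P.ResidueField)) (hg.comp ?_)
  exact RingHom.Finite.of_surjective _ (Ideal.bijective_algebraMap_quotient_residueField P).2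

/-- There is a finite subextension over which all finite degrees are prime to `ℓ`. -/
theorem exists_base {ℓ : ℕ} {k K : Type} [Field k] [Field K] [Algebra k K]
    (hb : BoundedPart ℓ k K) :
    ∃ L : IntermediateField k K, FiniteDimensional k L ∧
      ∀ M : IntermediateField L K, FiniteDimensional L M → ¬ ℓ ∣ finrank L M := by
  obtain ⟨m, hm⟩ := hb
  obtain ⟨j, ⟨L, hL, hLj⟩, hj⟩ : ∃ j, (∃ L : IntermediateField k K, FiniteDimensional k L ∧
      ℓ ^ j ∣ finrank k L) ∧ ¬ ∃ L : IntermediateField k K, FiniteDimensional k L ∧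
        ℓ ^ (j + 1) ∣ finrank k L := by
    by_contra hcon
    push Not at hcon
    have h1 : ∀ j, ∃ L : IntermediateField k K, FiniteDimensional k L ∧ ℓ ^ j ∣ finrank k L := by
      intro j
      induction j with
      | zero => exact ⟨⊥, inferInstance, by rw [pow_zero]; exact one_dvd _⟩
      | succ j ih =>
        obtain ⟨L, hL, hLj⟩ := ih
        exact hcon j ⟨L, hL, hLj⟩
    obtain ⟨L, hL, hLm⟩ := h1 m
    exact hm L hL hLm
  refine ⟨L, hL, fun M hM hMd => hj ⟨M.restrictScalars k, ?_, ?_⟩⟩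
  · exact FiniteDimensional.trans k L M
  · have hfree : Module.Free L M := Module.Free.of_divisionRing L M
    have h2 : finrank k L * finrank L M = finrank k M := finrank_mul_finrank k L M
    have h3 : finrank k (M.restrictScalars k) = finrank k L * finrank L M := h2.symm
    rw [h3, pow_succ]
    exact mul_dvd_mul hLj hMd

/-- the discrete valuations of finite extensions -/
theorem exists_valuations {ℓ : ℕ} (hℓ : 2 ≤ ℓ) {N : ℕ} (L : Type) [Field L]
    (A k : Type) [CommRing A] [IsDomain A] [IsNoetherianRing A] [Field k] [Algebra A k]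
    [IsFractionRing A k] [Algebra k L] [FiniteDimensional k L]
    (P : Fin N → Ideal A) (hinj : Function.Injective P) (hp : ∀ i, (P i).IsPrime)
    (h0 : ∀ i, P i ≠ ⊥) (h1 : ∀ i, (P i).height ≤ 1)
    (h2 : ∀ i, HasSepAll (P i).ResidueField ℓ) :
    ∃ v : Fin N → Valuation L ℝ≥0, (Pairwise fun i j => ∃ x, v i x < 1 ∧ 1 < v j x) ∧
      ∀ i, (∃ a, ∀ c, v i a ≠ v i c ^ ℓ) ∧ (ofValuation (v i)).HasExtension ℓ := by
  let _ : Algebra A L := ((algebraMap k L).comp (algebraMap A k)).toAlgebra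
  have htow : IsScalarTower A k L := IsScalarTower.of_algebraMap_eq' rfl
  have h3 := fun i => exists_dvr A k L (P i) (h0 i) (h1 i)
  choose V hV hV1 hV2 f hf using h3
  have h4 := fun i => exists_real (V i) (hV i)
  choose v hv using h4
  have hlt : ∀ i x, (V i).valuation x < 1 ↔ v i x < 1 := by
    intro i x
    rw [hv i]
    exact ((v i).isEquiv_valuation_valuationSubring.lt_one_iff_lt_one).symm
  have heq : ∀ i x, (V i).valuation x = 1 ↔ v i x = 1 := by
    intro i x
    rw [hv i]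
    exact ((v i).isEquiv_valuation_valuationSubring.eq_one_iff_eq_one).symm
  refine ⟨v, ?_, fun i => ⟨?_, ?_⟩⟩
  · intro i j hij
    have hne : P i ≠ P j := fun h => hij (hinj h)
    obtain ⟨a, ha, ha'⟩ := SetLike.not_le_iff_exists.1
      (not_le_of_ne (hp i) (hp j) (h0 i) (h1 j) hne)
    obtain ⟨b, hb, hb'⟩ := SetLike.not_le_iff_exists.1
      (not_le_of_ne (hp j) (hp i) (h0 j) (h1 i) hne.symm)
    have h5 := (hlt i _).1 (hV1 i a ha)
    have h6 := (heq i _).1 (hV2 i b hb')
    have h7 := (heq j _).1 (hV2 j a ha')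
    have h8 := (hlt j _).1 (hV1 j b hb)
    have hb0 : algebraMap A L b ≠ 0 := by
      intro h
      rw [h, map_zero] at h6
      exact zero_ne_one h6
    refine ⟨algebraMap A L a / algebraMap A L b, ?_, ?_⟩
    · rw [map_div₀, h6, div_one]
      exact h5
    · rw [map_div₀, h7, one_div]
      exact (one_lt_inv₀ (pos_iff_ne_zero.2 ((Valuation.ne_zero_iff _).2 hb0))).2 h8
  · have h8 : IsDiscreteValuationRing (v i).valuationSubring := by
      have h9 := hV i
      rw [hv i] at h9
      exact h9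
    exact value_not_pow (v i) h8 hℓ
  · have h5 : ∀ W : ValuationSubring L, V i = W → HasSep (ResidueField W) ℓ := by
      rintro _ rfl
      exact h2 i _ (f i) (hf i)
    exact h5 _ (hv i)

/-- The main step. -/
theorem main_step' {ℓ : ℕ} (hℓ : ℓ.Prime) (N : ℕ) (K : Type) [Field K]
    (hN : ∀ v : Fin N → Valuation K ℝ≥0, (Pairwise fun i j => ∃ x, v i x < 1 ∧ 1 < v j x) →
        ∃ i, (ofValuation (v i)).TameUpTo ℓ)
    (A k : Type) [CommRing A] [IsDomain A] [IsNoetherianRing A] [Field k] [Algebra A k]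
    [IsFractionRing A k] [Algebra k K] [Algebra.IsAlgebraic k K] (hb : BoundedPart ℓ k K)
    (P : Fin N → Ideal A) (hinj : Function.Injective P) (hp : ∀ i, (P i).IsPrime)
    (h0 : ∀ i, P i ≠ ⊥) (h1 : ∀ i, (P i).height ≤ 1)
    (h2 : ∀ i, HasSepAll (P i).ResidueField ℓ) : False := by
  obtain ⟨L, hL, hLK⟩ := exists_base hb
  obtain ⟨v, hv, hv2⟩ := exists_valuations hℓ.two_le L A k P hinj hp h0 h1 h2
  have halg : Algebra.IsAlgebraic L K := Algebra.IsAlgebraic.tower_top (K := k) L
  have h3 : ∀ i, ∃ w : Valuation K ℝ≥0, (∀ x, w (algebraMap L K x) = v i x) ∧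
      (∃ a : K, ∀ c : K, w a ≠ w c ^ ℓ) ∧ (ofValuation w).HasExtension ℓ := by
    intro i
    obtain ⟨⟨a, ha⟩, hext⟩ := hv2 i
    obtain ⟨w, hw1, hw2, hw3⟩ := exists_extension_val hℓ hLK (v i) a ha hext
    exact ⟨w, hw1, ⟨_, hw2⟩, hw3⟩
  choose w hw1 hw2 hw3 using h3
  obtain ⟨i, hi⟩ := hN w (by
    intro i j hij
    obtain ⟨x, hx1, hx2⟩ := hv hij
    refine ⟨algebraMap L K x, ?_, ?_⟩
    · rw [hw1]
      exact hx1
    · rw [hw1]
      exact hx2)
  rcases (hi ℓ hℓ.one_lt.le le_rfl).1 with h4 | h4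
  · obtain ⟨a, ha⟩ := hw2 i
    obtain ⟨c, hc⟩ := h4 a
    exact ha c hc
  · exact h4 (hw3 i)

theorem dim_le_one' {ℓ : ℕ} (hℓ : ℓ.Prime) (N : ℕ) (K : Type) [Field K]
    (hN : ∀ v : Fin N → Valuation K ℝ≥0, (Pairwise fun i j => ∃ x, v i x < 1 ∧ 1 < v j x) →
        ∃ i, (ofValuation (v i)).TameUpTo ℓ)
    (A k : Type) [CommRing A] [IsDomain A] [IsNoetherianRing A] [Field k] [Algebra A k]
    [IsFractionRing A k] [Algebra k K] [Algebra.IsAlgebraic k K] (hb : BoundedPart ℓ k K) :
    ringKrullDim A ≤ 1 := by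
  by_contra h
  obtain ⟨Q, hQ, hQ1⟩ := exists_prime_height h
  have h1 := (infinite_primes Q hQ1).sdiff (Set.finite_singleton (⊥ : Ideal A))
  obtain ⟨P, hP1, hP2⟩ := exists_seq _ N (by rw [h1.encard_eq]; exact le_top)
  have hp : ∀ i, (P i).IsPrime := fun i => (hP2 i).1.1
  refine main_step' hℓ N K hN A k hb P hP1 hp (fun i => (hP2 i).2) (fun i => (hP2 i).1.2.1)
    (fun i => hasSepAll_of_not_maximal (P i) (fun hmax => ?_) hℓ.two_le)
  have h2 : P i = Q := hmax.eq_of_le hQ.ne_top (hP2 i).1.2.2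
  exact hQ1 (by rw [← h2]; exact (hP2 i).1.2.1)

end Pool.Agent.Q312.AE
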