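import Pool.Agent.Q312.AE.Val

/-!
# The residue degree of an element of a henselian field
-/

set_option autoImplicit false
set_option linter.unusedSectionVars false

namespace Pool.Agent.Q312.AE

open Polynomial NNReal

section

variable {F Ω : Type*} [Field F] [Field Ω] [Algebra F Ω] [IsAlgClosed Ω]
  [Algebra.IsAlgebraic F Ω] (V : Valuation Ω ℝ≥0)

theorem val_le_of_root {P : F[X]} (hP : P.Monic)
    (hc : ∀ j, V (algebraMap F Ω (P.coeff j)) ≤ 1) {y : Ω} (hy : aeval y P = 0) : V y ≤ 1 := by
  have h1 : P.map (algebraMap F Ω) ∈ lifts (algebraMap V.integer Ω) := by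
    rw [lifts_iff_coeff_lifts]
    intro j
    exact ⟨⟨algebraMap F Ω (P.coeff j), hc j⟩, by rw [coeff_map]; rfl⟩
  obtain ⟨p0, hp0, -, hp0m⟩ := lifts_and_natDegree_eq_and_monic h1 (hP.map _)
  have h2 : IsIntegral V.integer y := by
    refine ⟨p0, hp0m, ?_⟩
    rw [← eval_map, hp0, eval_map]
    exact hy
  exact Valuation.Integers.mem_of_integral (Valuation.integer.integers V) h2

theorem coeff_le (P : F[X]) (hP : P.Monic) (h : ∀ y : Ω, aeval y P = 0 → V y ≤ 1) (j : ℕ) :
    V (algebraMap F Ω (P.coeff j)) ≤ 1 := by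
  have h1 := (IsAlgClosed.splits (P.map (algebraMap F Ω))).eq_prod_roots_of_monic (hP.map _)
  have h2 : P.map (algebraMap F Ω) ∈ liftsRing (algebraMap V.integer Ω) := by
    rw [h1]
    apply multiset_prod_mem
    intro q hq
    obtain ⟨a, ha, rfl⟩ := Multiset.mem_map.1 hq
    have h3 : V a ≤ 1 := h a (mem_aroots'.1 ha).2
    exact ⟨X - C ⟨a, h3⟩, by
      rw [coe_mapRingHom, Polynomial.map_sub, map_X, map_C]
      rfl⟩
  obtain ⟨p, hp⟩ := h2
  have h4 : (P.map (algebraMap F Ω)).coeff j = algebraMap V.integer Ω (p.coeff j) := by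
    rw [← hp, coe_mapRingHom, coeff_map]
  rw [coeff_map] at h4
  rw [h4]
  exact (p.coeff j).2

theorem eval_small (P : F[X]) (h : ∀ j, V (algebraMap F Ω (P.coeff j)) < 1) {y : Ω}
    (hy : V y ≤ 1) : V (aeval y P) < 1 := by
  rw [aeval_eq_sum_range]
  refine Valuation.map_sum_lt V one_ne_zero ?_
  intro j _
  rw [Algebra.smul_def, map_mul, map_pow]
  calc V (algebraMap F Ω (P.coeff j)) * V y ^ j ≤ V (algebraMap F Ω (P.coeff j)) * 1 := by
        gcongr
        exact pow_le_one₀ zero_le hy
    _ < 1 := by rw [mul_one]; exact h j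

variable {k : Type*} [Field k] (v : Valuation k ℝ≥0) (i : k →+* F)

/-- the polynomial over `v.valuationSubring` as a polynomial over `F` -/
noncomputable def toF (P : v.valuationSubring[X]) : F[X] :=
  P.map (i.comp v.valuationSubring.subtype)

theorem toF_coeff (P : v.valuationSubring[X]) (j : ℕ) :
    (toF v i P).coeff j = i (P.coeff j : k) := by
  rw [toF, coeff_map]
  rfl

/-- The reduction of the minimal polynomial. -/
theorem exists_reduction (hV : ∀ (σ : Ω ≃ₐ[F] Ω) (x : Ω), V (σ x) = V x)
    (hi : ∀ a : k, V (algebraMap F Ω (i a)) = v a)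
    (hdense : ∀ c : F, V (algebraMap F Ω c) ≤ 1 → ∃ b : k, V (algebraMap F Ω (c - i b)) < 1)
    (x : Ω) (hx1 : V x ≤ 1) :
    ∃ g : v.valuationSubring[X], g.Monic ∧ g.natDegree = (minpoly F x).natDegree ∧
      ∀ P Q : v.valuationSubring[X], P.Monic → P.natDegree ≠ 0 →
        (∀ j, v (((g - P * Q).coeff j : v.valuationSubring) : k) < 1) →
          V (aeval x (toF v i P)) < 1 := by
  classical
  have hx : IsIntegral F x := Algebra.IsIntegral.isIntegral x
  have hGc : ∀ j, V (algebraMap F Ω ((minpoly F x).coeff j)) ≤ 1 := by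
    apply coeff_le V _ (minpoly.monic hx)
    intro y hy
    have h1 := val_conj V hV hy X
    rw [aeval_X, aeval_X] at h1
    rw [h1]
    exact hx1
  set G := minpoly F x with hG
  have h1 : ∀ j, ∃ b : v.valuationSubring, V (algebraMap F Ω (G.coeff j - i b)) < 1 := by
    intro j
    obtain ⟨b, hb⟩ := hdense _ (hGc j)
    have h2 : v b ≤ 1 := by
      rw [← hi]
      have e1 : algebraMap F Ω (i b) =
          algebraMap F Ω (G.coeff j) - algebraMap F Ω (G.coeff j - i b) := by
        rw [← map_sub, sub_sub_cancel]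
      rw [e1]
      exact (V.map_sub _ _).trans (max_le (hGc j) hb.le)
    exact ⟨⟨b, h2⟩, hb⟩
  choose b hb using h1
  set n := G.natDegree with hn
  set g : v.valuationSubring[X] := X ^ n + ∑ j ∈ Finset.range n, C (b j) * X ^ j with hg
  have hlow : (∑ j ∈ Finset.range n, C (b j) * X ^ j : v.valuationSubring[X]).degree < n := by
    rw [← mem_degreeLT]
    refine Submodule.sum_mem _ fun j hj => ?_
    rw [mem_degreeLT]
    exact (degree_C_mul_X_pow_le j _).trans_lt (by exact_mod_cast Finset.mem_range.1 hj)
  have hgm : g.Monic := monic_X_pow_add hlow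
  have hgd : g.natDegree = n := by
    rw [hg, natDegree_add_eq_left_of_degree_lt (by rw [degree_X_pow]; exact hlow),
      natDegree_X_pow]
  have hgc : ∀ j, V (algebraMap F Ω ((G - toF v i g).coeff j)) < 1 := by
    intro j
    rw [coeff_sub, toF_coeff]
    rcases lt_trichotomy j n with h | h | h
    · have h2 : g.coeff j = b j := by
        rw [hg, coeff_add, coeff_X_pow, if_neg h.ne, zero_add, finsetSum_coeff,
          Finset.sum_eq_single j]
        · rw [coeff_C_mul, coeff_X_pow, if_pos rfl, mul_one]
        · intro m _ hm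
          rw [coeff_C_mul, coeff_X_pow, if_neg hm.symm, mul_zero]
        · intro h3
          exact absurd (Finset.mem_range.2 h) h3
      rw [h2]
      exact hb j
    · have h2 : g.coeff j = 1 := by
        rw [h, ← hgd]
        exact hgm.coeff_natDegree
      have h3 : G.coeff j = 1 := by
        rw [h, hn]
        exact (minpoly.monic hx).coeff_natDegree
      rw [h2, h3]
      have h4 : (1 : F) - i ((1 : v.valuationSubring) : k) = 0 := by
        rw [show ((1 : v.valuationSubring) : k) = 1 from rfl, map_one, sub_self]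
      rw [h4, map_zero, map_zero]
      exact one_pos
    · have h2 : g.coeff j = 0 := coeff_eq_zero_of_natDegree_lt (by rw [hgd]; exact h)
      have h3 : G.coeff j = 0 := coeff_eq_zero_of_natDegree_lt h
      rw [h2, h3]
      have h4 : (0 : F) - i ((0 : v.valuationSubring) : k) = 0 := by
        rw [show ((0 : v.valuationSubring) : k) = 0 from rfl, map_zero, sub_self]
      rw [h4, map_zero, map_zero]
      exact one_pos
  refine ⟨g, hgm, hgd, fun P Q hP hP1 hsm => ?_⟩
  have hPd : (toF v i P).natDegree = P.natDegree := hP.natDegree_map _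
  have hPm : (toF v i P).Monic := hP.map _
  apply val_small V hV x hPm
  · rw [hPd]
    exact hP1
  · intro y hy
    have hy1 : V y ≤ 1 := by
      refine val_le_of_root V hPm (fun j => ?_) hy
      rw [toF_coeff, hi]
      exact (P.coeff j).2
    have e1 : G = (G - toF v i g) + toF v i (g - P * Q) + toF v i P * toF v i Q := by
      simp only [toF, Polynomial.map_sub, Polynomial.map_mul]
      ring
    change V (aeval y G) < 1
    have e2 : aeval y G = aeval y (G - toF v i g) + aeval y (toF v i (g - P * Q)) := by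
      conv_lhs => rw [e1]
      rw [map_add, map_add, map_mul, hy, zero_mul, add_zero]
    rw [e2]
    refine V.map_add_lt (eval_small V _ hgc hy1) (eval_small V _ (fun j => ?_) hy1)
    rw [toF_coeff, hi]
    exact hsm j

end

end Pool.Agent.Q312.AE
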