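import Mathlib

/-!
# Invariant valuations of an algebraic closure
-/

set_option autoImplicit false
set_option linter.unusedSectionVars false

namespace Pool.Agent.Q312.AE

open Polynomial NNReal

theorem prod_const_of {α : Type*} (s : Multiset α) (f : α → ℝ≥0) (c : ℝ≥0)
    (h : ∀ a ∈ s, f a = c) : (s.map f).prod = c ^ s.card := by
  rw [Multiset.map_congr rfl h, Multiset.map_const', Multiset.prod_replicate]

theorem prod_lt_of {α : Type*} (s : Multiset α) (f : α → ℝ≥0) (hs : s ≠ 0)
    (h : ∀ a ∈ s, f a < 1) : (s.map f).prod < 1 := by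
  induction s using Multiset.induction_on with
  | empty => exact absurd rfl hs
  | cons a s ih =>
    rw [Multiset.map_cons, Multiset.prod_cons]
    have h1 : f a < 1 := h a (Multiset.mem_cons_self a s)
    by_cases h0 : s = 0
    · rw [h0, Multiset.map_zero, Multiset.prod_zero, mul_one]
      exact h1
    · have h2 := ih h0 fun b hb => h b (Multiset.mem_cons_of_mem hb)
      exact mul_lt_one_of_nonneg_of_lt_one_left zero_le h1 h2.le

section

variable {F Ω : Type*} [Field F] [Field Ω] [Algebra F Ω] [IsAlgClosed Ω]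
  [Algebra.IsAlgebraic F Ω] (V : Valuation Ω ℝ≥0)

theorem val_conj (hV : ∀ (σ : Ω ≃ₐ[F] Ω) (x : Ω), V (σ x) = V x) {x y : Ω}
    (h : aeval y (minpoly F x) = 0) (P : F[X]) : V (aeval y P) = V (aeval x P) := by
  have hcl : IsAlgClosure F Ω := ⟨inferInstance, inferInstance⟩
  have hn : Normal F Ω := IsAlgClosure.normal F Ω
  have hx : IsIntegral F x := Algebra.IsIntegral.isIntegral x
  have h1 : minpoly F x = minpoly F y :=
    minpoly.eq_of_irreducible_of_monic (minpoly.irreducible hx) h (minpoly.monic hx)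
  obtain ⟨σ, hσ⟩ := (isConjRoot_iff_exists_algEquiv (K := F) (x := y) (y := x)).1 h1.symm
  rw [← hσ, show σ x = (σ : Ω →ₐ[F] Ω) x from rfl, aeval_algHom_apply]
  exact hV σ _

theorem eval_eq_prod {P : F[X]} (hP : P.Monic) (x : Ω) :
    aeval x P = ((P.aroots Ω).map fun b => x - b).prod := by
  have h1 := (IsAlgClosed.splits (P.map (algebraMap F Ω))).eval_eq_prod_roots x
  rw [(hP.map _).leadingCoeff, one_mul, eval_map_algebraMap] at h1
  exact h1

theorem val_eval {P : F[X]} (hP : P.Monic) (x : Ω) :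
    V (aeval x P) = ((P.aroots Ω).map fun b => V (x - b)).prod := by
  rw [eval_eq_prod hP, map_multiset_prod, Multiset.map_map]
  rfl

theorem card_aroots (P : F[X]) : (P.aroots Ω).card = P.natDegree := by
  have h1 := (IsAlgClosed.splits (P.map (algebraMap F Ω))).natDegree_eq_card_roots
  rw [natDegree_map] at h1
  exact h1.symm

theorem val_root (hV : ∀ (σ : Ω ≃ₐ[F] Ω) (x : Ω), V (σ x) = V x) {x y : Ω}
    (h : y ∈ (minpoly F x).aroots Ω) : V y = V x := by
  have h1 := val_conj V hV (mem_aroots'.1 h).2 X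
  rwa [aeval_X, aeval_X] at h1

/-- the value of the constant coefficient of the minimal polynomial -/
theorem val_coeff_zero (hV : ∀ (σ : Ω ≃ₐ[F] Ω) (x : Ω), V (σ x) = V x) (x : Ω) :
    V (algebraMap F Ω ((minpoly F x).coeff 0)) = V x ^ (minpoly F x).natDegree := by
  have hx : IsIntegral F x := Algebra.IsIntegral.isIntegral x
  have h1 : aeval (0 : Ω) (minpoly F x) = algebraMap F Ω ((minpoly F x).coeff 0) := by
    rw [aeval_def, eval₂_at_zero]
  rw [← h1, val_eval V (minpoly.monic hx), ← card_aroots (Ω := Ω)]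
  apply prod_const_of
  intro a ha
  rw [zero_sub, Valuation.map_neg]
  exact val_root V hV ha

/-- If the minimal polynomial of `x` has a small value at all roots of `P`, then `P` has a small
value at `x`. -/
theorem val_small (hV : ∀ (σ : Ω ≃ₐ[F] Ω) (x : Ω), V (σ x) = V x) (x : Ω) {P : F[X]}
    (hP : P.Monic) (hP1 : P.natDegree ≠ 0)
    (h : ∀ y : Ω, aeval y P = 0 → V (aeval y (minpoly F x)) < 1) : V (aeval x P) < 1 := by
  have hx : IsIntegral F x := Algebra.IsIntegral.isIntegral x
  have h1 : V (aeval x P) ^ (minpoly F x).natDegree =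
      (((minpoly F x).aroots Ω).map fun a => V (aeval a P)).prod := by
    rw [← card_aroots (Ω := Ω)]
    symm
    apply prod_const_of
    intro a ha
    exact val_conj V hV (mem_aroots'.1 ha).2 P
  have h2 : (((minpoly F x).aroots Ω).map fun a => V (aeval a P)).prod =
      ((P.aroots Ω).map fun b => V (aeval b (minpoly F x))).prod := by
    have e1 : (fun a => V (aeval a P)) =
        fun a : Ω => ((P.aroots Ω).map fun b => V (a - b)).prod := by
      funext a
      exact val_eval V hP a
    have e2 : (fun b => V (aeval b (minpoly F x))) =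
        fun b : Ω => (((minpoly F x).aroots Ω).map fun a => V (a - b)).prod := by
      funext b
      rw [val_eval V (minpoly.monic hx)]
      congr 2
      funext a
      exact Valuation.map_sub_swap _ _ _
    rw [e1, e2]
    exact Multiset.prod_map_prod_map _ _
  have h3 : ((P.aroots Ω).map fun b => V (aeval b (minpoly F x))).prod < 1 := by
    apply prod_lt_of
    · intro h0
      apply hP1
      rw [← card_aroots (Ω := Ω), h0, Multiset.card_zero]
    · intro a ha
      exact h a (mem_aroots'.1 ha).2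
  rw [← h2, ← h1] at h3
  by_contra hcon
  exact absurd h3 (not_lt.2 (one_le_pow₀ (not_lt.1 hcon)))

variable {k : Type*} [Field k] (v : Valuation k ℝ≥0) (i : k →+* F)


/-- the values of elements of a degree prime to `ℓ` -/
theorem value_pow (hV : ∀ (σ : Ω ≃ₐ[F] Ω) (x : Ω), V (σ x) = V x)
    (hi : ∀ a : k, V (algebraMap F Ω (i a)) = v a)
    (hval : ∀ c : F, c ≠ 0 → ∃ b : k, V (algebraMap F Ω c) = v b) {ℓ : ℕ} (hℓ : ℓ.Prime) {y : Ω}
    (hy : ¬ ℓ ∣ (minpoly F y).natDegree) {a : k} (ha : V y ^ ℓ = v a) : ∃ c : k, v a = v c ^ ℓ := by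
  by_cases h0 : y = 0
  · refine ⟨0, ?_⟩
    rw [← ha, h0, map_zero, map_zero]
  · set n := (minpoly F y).natDegree with hn
    have hy0 : IsIntegral F y := Algebra.IsIntegral.isIntegral y
    have h1 : (minpoly F y).coeff 0 ≠ 0 := minpoly.coeff_zero_ne_zero hy0 h0
    obtain ⟨b, hb⟩ := hval _ h1
    have h2 := val_coeff_zero V hV y
    rw [hb, ← hn] at h2
    have hcop : Nat.Coprime n ℓ := by
      rw [Nat.coprime_comm]
      exact (Nat.Prime.coprime_iff_not_dvd hℓ).2 hy
    have hbz := Nat.gcd_eq_gcd_ab n ℓ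
    rw [hcop.gcd_eq_one] at hbz
    set s := Nat.gcdA n ℓ
    set t := Nat.gcdB n ℓ
    refine ⟨b ^ s * a ^ t, ?_⟩
    have hVy : V y ≠ 0 := (Valuation.ne_zero_iff _).2 h0
    have h3 : V y = v (b ^ s * a ^ t) := by
      calc V y = V y ^ (1 : ℤ) := (zpow_one _).symm
        _ = V y ^ ((n : ℤ) * s + ℓ * t) := by rw [← hbz]; rfl
        _ = (V y ^ n) ^ s * (V y ^ ℓ) ^ t := by
          rw [zpow_add₀ hVy, zpow_mul, zpow_mul, zpow_natCast, zpow_natCast]
        _ = v (b ^ s * a ^ t) := by
          rw [← h2, ha, map_mul, map_zpow₀, map_zpow₀]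
    rw [← h3, ha]

end

end Pool.Agent.Q312.AE
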